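import Pool.Agent.Lib.MP_8416b9_lc.Red3
import Pool.Agent.Lib.MP_8416b9_lc.Mach2
import Pool.Agent.Lib.MP_8416b9_lc.Comb
import Pool.Agent.Lib.MP_8416b9_lc.Count
import Pool.Agent.Lib.MP_8416b9_lc.LHL
import Pool.Agent.Lib.MP_8416b9_lc.Compl
import Pool.Agent.Lib.MP_8416b9_lc.Search
import Pool.Agent.Lib.MP_8416b9_lc.Amp
import Pool.Agent.Lib.MP_8416b9_lc.Param

/-!
# MP_8416b9_lc, Q2: Graph Automorphism is in `ZPP` relative to the `KT`-random strings

The algorithm. A search-to-decision reduction for Graph Automorphism reduces the problem to
certifying the rigidity of `n⁴ + 1` explicit structures with `2n` points. To certify that a
structure `X` is rigid, label its points at random with distinct labels, publish the structure in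
the order of the labels together with the sorted labels, do this independently for `2^k` blocks of
`2k+9` samples, hash each block with one random linear map to a number of bits just below the
entropy of the labels, and ask the oracle about the string of all hash values followed by the map.
If `X` is rigid the published copies determine the labels, and by the leftover hash lemma the string
is nearly uniform, so it is in `R_KT` with constant probability. If `X` has a nontrivial
automorphism, every block is the block of labellings which are the least in their orbit for the
order of the labels of two fixed points, and these have codes shorter by one bit per sample; so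
the string is the output of a description which is short and fast enough for `KT`. Hence
the certificate is never wrong.
-/

namespace Pool.Agent.Results.MP_8416b9_lc.GraphAutomorphismRKT

open Pool.Agent.GAKT

/-- **Q2**: for every universal machine `U` with random access, `GA ∈ ZPP^{R_KT}`, where `KT` is
defined with `U`. -/
theorem result (U : UMachine) : InZPP (RKT U) GA :=
  red_main U (mach comb1) (Pool.Agent.GAKT.compl lhl comb2 comb3) count search amp param size

end Pool.Agent.Results.MP_8416b9_lc.GraphAutomorphismRKT
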